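import Pool.Agent.SOR.Stmts2

/-!
# Squad SOR, row HOL: exact pairs from averages
-/

open scoped BigOperators

noncomputable section

namespace Pool.Agent.SOR.H15

section

variable {Γ Y : Type} [Group Γ] {R : Subring ℚ} {i : Γ →* Equiv.Perm Y} {ρ : Γ → Y → ℚ}

theorem rho_one (h : Cr R i ρ) (y : Y) : ρ 1 y ∈ R := by
  have h1 := h 1 1 y
  rw [mul_one, map_one, Equiv.Perm.one_apply] at h1
  have h2 := R.neg_mem h1
  have e : -(ρ 1 y - ρ 1 y - ρ 1 y) = ρ 1 y := by ring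
  rwa [e] at h2

theorem rho_inv (h : Cr R i ρ) (g : Γ) (y : Y) (hy : i g y = y) : ρ g⁻¹ y + ρ g y ∈ R := by
  have h1 := h g⁻¹ g y
  rw [inv_mul_cancel, hy] at h1
  have h2 := R.sub_mem (rho_one h y) h1
  have e : ρ 1 y - (ρ 1 y - ρ g⁻¹ y - ρ g y) = ρ g⁻¹ y + ρ g y := by ring
  rwa [e] at h2

theorem p_pow {s : Γ} {p : Y → ℚ} (hp : ∀ y, p (i s y) = p y) (k : ℕ) (y : Y) :
    p (i (s ^ k) y) = p y := by
  induction k generalizing y with
  | zero => rw [pow_zero, map_one, Equiv.Perm.one_apply]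
  | succ k ih =>
    rw [pow_succ, map_mul, Equiv.Perm.mul_apply, ih, hp]

theorem rho_pow (h : Cr R i ρ) {s : Γ} {p : Y → ℚ} (hp : ∀ y, p (i s y) = p y)
    (hs : ∀ y, ρ s y - p y ∈ R) (k : ℕ) (y : Y) : ρ (s ^ k) y - k * p y ∈ R := by
  induction k generalizing y with
  | zero =>
    rw [pow_zero, Nat.cast_zero, zero_mul, sub_zero]
    exact rho_one h y
  | succ k ih =>
    have h1 := h (s ^ k) s y
    have h2 := ih (i s y)
    rw [hp] at h2
    have h3 := R.add_mem (R.add_mem h1 h2) (hs y)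
    rw [pow_succ]
    have e : ρ (s ^ k * s) y - ρ (s ^ k) (i s y) - ρ s y + (ρ (s ^ k) (i s y) - ↑k * p y) +
        (ρ s y - p y) = ρ (s ^ k * s) y - ((k + 1 : ℕ) : ℚ) * p y := by
      push_cast
      ring
    rwa [e] at h3

theorem rho_zpow (h : Cr R i ρ) {s : Γ} {p : Y → ℚ} (hp : ∀ y, p (i s y) = p y)
    (hs : ∀ y, ρ s y - p y ∈ R) (k : ℤ) (y : Y) : ρ (s ^ k) y - k * p y ∈ R := by
  obtain ⟨n, rfl | rfl⟩ := Int.eq_nat_or_neg k
  · rw [zpow_natCast, Int.cast_natCast]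
    exact rho_pow h hp hs n y
  · have h1 := h (s ^ (-(n : ℤ))) (s ^ n) ((i (s ^ n))⁻¹ y)
    have h2 := rho_pow h hp hs n ((i (s ^ n))⁻¹ y)
    have e1 : i (s ^ n) ((i (s ^ n))⁻¹ y) = y := by
      rw [← Equiv.Perm.mul_apply, mul_inv_cancel, Equiv.Perm.one_apply]
    have e2 : p ((i (s ^ n))⁻¹ y) = p y := by
      rw [← p_pow hp n ((i (s ^ n))⁻¹ y), e1]
    have e3 : s ^ (-(n : ℤ)) * s ^ n = 1 := by
      rw [zpow_neg, zpow_natCast, inv_mul_cancel]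
    rw [e3, e1] at h1
    rw [e2] at h2
    have h3 := R.sub_mem (R.sub_mem (rho_one h ((i (s ^ n))⁻¹ y)) h1) h2
    have e : ρ 1 ((i (s ^ n))⁻¹ y) - (ρ 1 ((i (s ^ n))⁻¹ y) - ρ (s ^ (-(n : ℤ))) y -
        ρ (s ^ n) ((i (s ^ n))⁻¹ y)) - (ρ (s ^ n) ((i (s ^ n))⁻¹ y) - ↑n * p y) =
        ρ (s ^ (-(n : ℤ))) y - ((-(n : ℤ) : ℤ) : ℚ) * p y := by
      push_cast
      ring
    rwa [e] at h3

theorem rho_sum (h : Cr R i ρ) {t : Γ} {θ : Y → ℚ} (ht : ∀ y, ρ t y - θ y ∈ R) (l : ℕ) (y : Y) :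
    ρ (t ^ l) y - ∑ j ∈ Finset.range l, θ (((i t) ^ j) y) ∈ R := by
  induction l with
  | zero =>
    rw [pow_zero, Finset.sum_range_zero, sub_zero]
    exact rho_one h y
  | succ l ih =>
    have h1 := h t (t ^ l) y
    have h2 := ht (i (t ^ l) y)
    have h3 := R.add_mem (R.add_mem h1 h2) ih
    rw [pow_succ', Finset.sum_range_succ, ← map_pow]
    have e : ρ (t * t ^ l) y - ρ t (i (t ^ l) y) - ρ (t ^ l) y + (ρ t (i (t ^ l) y) -
        θ (i (t ^ l) y)) + (ρ (t ^ l) y - ∑ j ∈ Finset.range l, θ ((i t ^ j) y)) =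
        ρ (t * t ^ l) y - (∑ j ∈ Finset.range l, θ ((i t ^ j) y) + θ (i (t ^ l) y)) := by
      ring
    rwa [e] at h3

end

theorem hol (have_ : AveStmt) : HolStmt := by
  intro Γ Y _ _ R i ρ hC s t hst p θ hps hpt hs hθ ht
  have hc : i s * i t = i t * i s := by rw [← map_mul, hst, map_mul]
  obtain ⟨a1, _, _, a4, _⟩ := have_ Y (i s) (i t) hc
  have hpos : ∀ y (k : ℤ) (l : ℕ), i (s ^ k * t ^ l) y = y →
      ρ (s ^ k * t ^ l) y - k * p y - l * av (i s) (i t) θ y ∈ R := by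
    intro y k l hy
    have h1 := hC (s ^ k) (t ^ l) y
    have h2 := rho_zpow hC hps hs k (i (t ^ l) y)
    rw [p_pow hpt] at h2
    have h3 := rho_sum hC ht l y
    have h4 := a4 θ hθ y k l (by rw [← map_zpow, ← map_pow, ← map_mul]; exact hy)
    rw [h4] at h3
    have h5 := R.add_mem (R.add_mem h1 h2) h3
    have e : ρ (s ^ k * t ^ l) y - ρ (s ^ k) (i (t ^ l) y) - ρ (t ^ l) y +
        (ρ (s ^ k) (i (t ^ l) y) - ↑k * p y) + (ρ (t ^ l) y - ↑l * av (i s) (i t) θ y) =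
        ρ (s ^ k * t ^ l) y - k * p y - l * av (i s) (i t) θ y := by ring
    rwa [e] at h5
  refine ⟨hps, hpt, fun y => (a1 θ y).1, fun y => (a1 θ y).2, ?_⟩
  intro y k l hy
  obtain ⟨n, rfl | rfl⟩ := Int.eq_nat_or_neg l
  · rw [zpow_natCast, Int.cast_natCast] at *
    exact hpos y k n hy
  · have e1 : (s ^ k * t ^ (-(n : ℤ)))⁻¹ = s ^ (-k) * t ^ n := by
      have hcm : Commute s t := hst
      rw [mul_inv_rev, ← zpow_neg, ← zpow_neg, neg_neg, zpow_natCast]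
      exact ((hcm.symm.pow_left n).zpow_right (-k)).eq
    have hy' : i (s ^ (-k) * t ^ n) y = y := by
      rw [← e1, map_inv, Equiv.Perm.inv_eq_iff_eq]
      exact hy.symm
    have h1 := hpos y (-k) n hy'
    have h2 := rho_inv hC _ y hy
    rw [e1] at h2
    have h3 := R.sub_mem h2 h1
    have e : ρ (s ^ (-k) * t ^ n) y + ρ (s ^ k * t ^ (-(n : ℤ))) y -
        (ρ (s ^ (-k) * t ^ n) y - ((-k : ℤ) : ℚ) * p y - ↑n * av (i s) (i t) θ y) =
        ρ (s ^ k * t ^ (-(n : ℤ))) y - k * p y - ((-(n : ℤ) : ℤ) : ℚ) * av (i s) (i t) θ y := by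
      push_cast
      ring
    rwa [e] at h3

end Pool.Agent.SOR.H15
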